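import Pool.Agent.H73.Low1

set_option autoImplicit false

namespace Pool.Agent.Results.MP_87e037_al.Exists

open Polynomial

/-- If `θ 0, …, θ d` are pairwise distinct (`d ≥ 1`) and satisfy condition (*), there is a nonzero
lowering map on the space `V` of polynomials of degree at most `d`. -/
theorem result (K : Type*) [Field K] (d : ℕ) (hd : 1 ≤ d) (θ : ℕ → K)
    (hinj : ∀ i ≤ d, ∀ j ≤ d, θ i = θ j → i = j)
    (hstar : ∃ r : K, ∀ i, 2 ≤ i → i + 1 ≤ d →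
      (θ (i - 2) - θ (i + 1)) * (θ (i - 1) - θ i)⁻¹ = r) :
    ∃ Ψ : degreeLE K d →ₗ[K] degreeLE K d, Ψ ≠ 0 ∧
      (∀ v : degreeLE K d, (v : K[X]) = 1 → Ψ v = 0) ∧
      ∀ i, 1 ≤ i → i ≤ d → ∀ v : degreeLE K d,
        ((v : K[X]) = ∏ h ∈ Finset.range i, (X - C (θ h)) →
          (Ψ v : K[X]) ∈ Submodule.span K {∏ h ∈ Finset.range (i - 1), (X - C (θ h))}) ∧
        ((v : K[X]) = ∏ h ∈ Finset.range i, (X - C (θ (d - h))) →
          (Ψ v : K[X]) ∈ Submodule.span K {∏ h ∈ Finset.range (i - 1), (X - C (θ (d - h)))}) :=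
  Pool.Agent.H73.Low.main d hd θ hinj hstar

end Pool.Agent.Results.MP_87e037_al.Exists
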